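import Pool.Agent.Helper15.T6.Stmts

set_option autoImplicit false

/-!
MP_2f9829_co, all degrees: PSIC, the integrand for a family of disjoint cycles.
-/

open Finset MeasureTheory Filter Topology

namespace Pool.Agent.Helper71.T6

open Pool.Agent.Helper15.T6
open Pool.Agent.Helper15.T4 (IsPM PM cov IsMat nsq po)

/-- paths -/
theorem path_sum {L : Type} [Fintype L] [DecidableEq L] (Q : Matrix L L ℝ) :
    ∀ (k : ℕ) (F : L → L → ℝ),
      ∑ α : Fin (k + 1) → L, (∏ r : Fin k, Q (α r.castSucc) (α r.succ)) *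
        F (α 0) (α (Fin.last k)) = ∑ x, ∑ y, (Q ^ k) x y * F x y := by
  intro k
  induction k with
  | zero =>
    intro F
    rw [← Equiv.sum_comp (Equiv.funUnique (Fin 1) L).symm]
    refine Finset.sum_congr rfl fun x _ => ?_
    rw [Finset.sum_eq_single x]
    · simp
    · intro y _ hy
      simp [Matrix.one_apply_ne hy.symm]
    · intro h
      exact absurd (Finset.mem_univ x) h
  | succ k ih =>
    intro F
    rw [← Equiv.sum_comp (Fin.consEquiv (fun _ : Fin (k + 2) => L)), Fintype.sum_prod_type]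
    refine Finset.sum_congr rfl fun x _ => ?_
    have h := ih (fun u y => Q x u * F x y)
    calc _ = ∑ α : Fin (k + 1) → L, (∏ r : Fin k, Q (α r.castSucc) (α r.succ)) *
          (Q x (α 0) * F x (α (Fin.last k))) := by
            refine Finset.sum_congr rfl fun α _ => ?_
            rw [Fin.prod_univ_succ]
            have e1 : (Fin.consEquiv (fun _ : Fin (k + 2) => L)) (x, α) = Fin.cons x α := rfl
            rw [e1]
            have e2 : ∀ r : Fin k, (Fin.cons x α : Fin (k + 2) → L) (r.succ.castSucc) =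
                α r.castSucc := by
              intro r
              rw [← Fin.succ_castSucc, Fin.cons_succ]
            simp only [Fin.castSucc_zero, Fin.cons_zero, Fin.cons_succ, e2]
            rw [← Fin.succ_last, Fin.cons_succ]
            ring
      _ = ∑ u, ∑ y, (Q ^ k) u y * (Q x u * F x y) := h
      _ = ∑ y, (Q ^ (k + 1)) x y * F x y := by
            rw [Finset.sum_comm]
            refine Finset.sum_congr rfl fun y _ => ?_
            rw [pow_succ', Matrix.mul_apply, Finset.sum_mul]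
            refine Finset.sum_congr rfl fun u _ => ?_
            ring

/-- closed paths -/
theorem cyc_sum {L : Type} [Fintype L] [DecidableEq L] (Q : Matrix L L ℝ) (k : ℕ) :
    ∑ α : Fin (k + 1) → L, ∏ r, Q (α r) (α (r + 1)) = (Q ^ (k + 1)).trace := by
  have h := path_sum Q k (fun x y => Q y x)
  calc _ = ∑ α : Fin (k + 1) → L, (∏ r : Fin k, Q (α r.castSucc) (α r.succ)) *
      Q (α (Fin.last k)) (α 0) := by
        refine Finset.sum_congr rfl fun α _ => ?_
        rw [Fin.prod_univ_castSucc]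
        simp only [Fin.coeSucc_eq_succ, Fin.last_add_one]
    _ = ∑ x, ∑ y, (Q ^ k) x y * Q y x := h
    _ = (Q ^ (k + 1)).trace := by
        rw [pow_succ, Matrix.trace]
        refine Finset.sum_congr rfl fun x _ => ?_
        rw [Matrix.diag_apply, Matrix.mul_apply]

/-- a permutation with two prescribed values -/
theorem exists_perm {d : ℕ} (p q a b : Fin d) (hpq : p ≠ q) (hab : a ≠ b) :
    ∃ π : Equiv.Perm (Fin d), π p = a ∧ π q = b := by
  refine ⟨(Equiv.swap p a).trans (Equiv.swap (Equiv.swap p a q) b), ?_, ?_⟩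
  · rw [Equiv.trans_apply, Equiv.swap_apply_left]
    apply Equiv.swap_apply_of_ne_of_ne
    · intro h
      have h1 : Equiv.swap p a p = Equiv.swap p a q := by rw [Equiv.swap_apply_left, ← h]
      exact hpq ((Equiv.swap p a).injective h1)
    · exact hab
  · rw [Equiv.trans_apply, Equiv.swap_apply_left]

/-- the vertex matrix as a sum over all labelings -/
theorem RW_eq {d : ℕ} {L : Type} [Fintype L] [DecidableEq L] (w : (Fin d → L) → ℝ)
    (p q : Fin d) (x : L → ℝ) (α β : L) :
    RW w p q x α β = ∑ f : Fin d → L, ((if f p = α then (1 : ℝ) else 0) *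
      (w f * ∏ i ∈ (univ.erase p).erase q, x (f i))) * (if f q = β then (1 : ℝ) else 0) := by
  rw [RW, Finset.sum_filter]
  refine Finset.sum_congr rfl fun f _ => ?_
  by_cases h1 : f p = α
  · by_cases h2 : f q = β
    · rw [if_pos ⟨h1, h2⟩, if_pos h1, if_pos h2, one_mul, mul_one]
    · rw [if_neg (fun h => h2 h.2), if_neg h2, mul_zero]
  · rw [if_neg (fun h => h1 h.1), if_neg h1, zero_mul, zero_mul]

/-- the vertex matrix does not depend on the two half-edges -/
theorem RW_symm {d : ℕ} {L : Type} [Fintype L] [DecidableEq L] (w : (Fin d → L) → ℝ)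
    (hw : SymW w) (p q a b : Fin d) (hpq : p ≠ q) (hab : a ≠ b) (x : L → ℝ) :
    RW w a b x = RW w p q x := by
  obtain ⟨π, h1, h2⟩ := exists_perm p q a b hpq hab
  ext α β
  rw [RW_eq, RW_eq, ← Equiv.sum_comp (Equiv.arrowCongr π.symm (Equiv.refl L))
    (fun f => ((if f p = α then (1 : ℝ) else 0) *
      (w f * ∏ i ∈ (univ.erase p).erase q, x (f i))) * (if f q = β then (1 : ℝ) else 0))]
  refine Finset.sum_congr rfl fun f _ => ?_
  have e1 : (Equiv.arrowCongr π.symm (Equiv.refl L)) f = fun i => f (π i) := rfl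
  rw [e1]
  simp only [h1, h2]
  rw [hw π f]
  have e2 : ∏ i ∈ (univ.erase a).erase b, x (f i) =
      ∏ i ∈ (univ.erase p).erase q, x (f (π i)) := by
    symm
    refine Finset.prod_bij (fun i _ => π i) ?_ ?_ ?_ ?_
    · intro i hi
      rw [Finset.mem_erase, Finset.mem_erase] at hi ⊢
      refine ⟨?_, ?_, Finset.mem_univ _⟩
      · rw [← h2]
        exact fun h => hi.1 (π.injective h)
      · rw [← h1]
        exact fun h => hi.2.1 (π.injective h)
    · intro i _ j _ h
      exact π.injective h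
    · intro j hj
      refine ⟨π.symm j, ?_, π.apply_symm_apply j⟩
      rw [Finset.mem_erase, Finset.mem_erase] at hj ⊢
      refine ⟨?_, ?_, Finset.mem_univ _⟩
      · intro h
        apply hj.1
        rw [← h2, ← h, π.apply_symm_apply]
      · intro h
        apply hj.2.1
        rw [← h1, ← h, π.apply_symm_apply]
    · intro i _
      rfl
  rw [e2]

/-- one cycle -/
theorem block {d : ℕ} {L : Type} [Fintype L] [DecidableEq L] (w : (Fin d → L) → ℝ)
    (hw : SymW w) (p q : Fin d) (hpq : p ≠ q) (x : L → ℝ) (k : ℕ) (a b : Fin (k + 1) → Fin d)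
    (hab : ∀ r, a r ≠ b r) :
    ∑ τ : Fin (k + 1) → (Fin d → L), ∏ r, ((w (τ r) *
      ∏ i ∈ (univ.erase (a r)).erase (b r), x (τ r i)) *
        (if τ r (b r) = τ (r + 1) (a (r + 1)) then (1 : ℝ) else 0)) =
    ((RW w p q x) ^ (k + 1)).trace := by
  rw [← cyc_sum]
  have h1 : ∀ α : Fin (k + 1) → L, ∏ r, RW w p q x (α r) (α (r + 1)) =
      ∑ τ : Fin (k + 1) → (Fin d → L), ∏ r, (((if τ r (a r) = α r then (1 : ℝ) else 0) *
        (w (τ r) * ∏ i ∈ (univ.erase (a r)).erase (b r), x (τ r i))) *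
          (if τ r (b r) = α (r + 1) then (1 : ℝ) else 0)) := by
    intro α
    have h2 := Finset.prod_univ_sum (fun _ : Fin (k + 1) => (univ : Finset (Fin d → L)))
      (fun r (f : Fin d → L) => (((if f (a r) = α r then (1 : ℝ) else 0) *
        (w f * ∏ i ∈ (univ.erase (a r)).erase (b r), x (f i))) *
          (if f (b r) = α (r + 1) then (1 : ℝ) else 0)))
    rw [Fintype.piFinset_univ] at h2
    rw [← h2]
    refine Finset.prod_congr rfl fun r _ => ?_
    rw [← RW_symm w hw p q (a r) (b r) hpq (hab r) x, RW_eq]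
  rw [Finset.sum_congr rfl (fun α _ => h1 α), Finset.sum_comm]
  refine Finset.sum_congr rfl fun τ _ => ?_
  rw [Finset.sum_eq_single (fun r => τ r (a r))]
  · refine Finset.prod_congr rfl fun r _ => ?_
    rw [if_pos rfl, one_mul]
  · intro α _ hα
    have h3 : ∃ r, τ r (a r) ≠ α r := by
      by_contra hcon
      push Not at hcon
      exact hα (funext fun r => (hcon r).symm)
    obtain ⟨r, hr⟩ := h3
    apply Finset.prod_eq_zero (Finset.mem_univ r)
    rw [if_neg hr, zero_mul, zero_mul]
  · intro h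
    exact absurd (Finset.mem_univ _) h

theorem PSIC (hSTR : ST_STR) (hSTRU : ST_STRU) : ST_PSIC := by
  intro d L _ _ w hw p q hpq n I _ κ c x hc
  classical
  obtain ⟨hval, hdis⟩ := hc
  have hc : DisjFam c := ⟨hval, hdis⟩
  obtain ⟨-, -, -, -, hcovU⟩ := hSTRU n d I κ c hc
  -- the condition on the labels
  have hEqn : ∀ σ : HE n d → L, (if Eqn (EU c) σ then (1 : ℝ) else 0) =
      ∏ i, ∏ r : Fin (κ i + 1), (if σ ((c i r).1, (c i r).2.2) =
        σ ((c i (r + 1)).1, (c i (r + 1)).2.1) then (1 : ℝ) else 0) := by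
    intro σ
    have hiff : Eqn (EU c) σ ↔ ∀ i, ∀ r : Fin (κ i + 1), σ ((c i r).1, (c i r).2.2) =
        σ ((c i (r + 1)).1, (c i (r + 1)).2.1) := by
      constructor
      · intro h i r
        apply h
        rw [EU, Finset.mem_biUnion]
        exact ⟨i, Finset.mem_univ _, by
          rw [E, Finset.mem_image]
          exact ⟨r, Finset.mem_univ _, rfl⟩⟩
      · intro h u v huv
        rw [EU, Finset.mem_biUnion] at huv
        obtain ⟨i, -, hi⟩ := huv
        rw [E, Finset.mem_image] at hi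
        obtain ⟨r, -, hr⟩ := hi
        rw [Sym2.eq_iff] at hr
        rcases hr with ⟨h1, h2⟩ | ⟨h1, h2⟩
        · rw [← h1, ← h2]
          exact h i r
        · rw [← h1, ← h2]
          exact (h i r).symm
    by_cases hh : Eqn (EU c) σ
    · rw [if_pos hh]
      symm
      refine Finset.prod_eq_one fun i _ => Finset.prod_eq_one fun r _ => ?_
      rw [if_pos (hiff.1 hh i r)]
    · rw [if_neg hh]
      rw [hiff] at hh
      push Not at hh
      obtain ⟨i, r, hir⟩ := hh
      symm
      apply Finset.prod_eq_zero (Finset.mem_univ i)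
      apply Finset.prod_eq_zero (Finset.mem_univ r)
      rw [if_neg hir]
  -- the covered half-edges
  have hcov : ∀ (v : Fin n) (j : Fin d), (v, j) ∈ cov (EU c) ↔ ∃ (i : I) (r : Fin (κ i + 1)),
      v = (c i r).1 ∧ (j = (c i r).2.1 ∨ j = (c i r).2.2) := by
    intro v j
    rw [hcovU]
    constructor
    · rintro ⟨i, hi⟩
      obtain ⟨r, hr⟩ := ((hSTR n d (κ i) (c i) (hval i)).2.2.2.2 (v, j)).1 hi
      refine ⟨i, r, ?_⟩
      rcases hr with h | h
      · exact ⟨congrArg Prod.fst h, Or.inl (congrArg Prod.snd h)⟩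
      · exact ⟨congrArg Prod.fst h, Or.inr (congrArg Prod.snd h)⟩
    · rintro ⟨i, r, h1, h2⟩
      refine ⟨i, ((hSTR n d (κ i) (c i) (hval i)).2.2.2.2 (v, j)).2 ⟨r, ?_⟩⟩
      rcases h2 with h | h
      · exact Or.inl (by rw [h1, h])
      · exact Or.inr (by rw [h1, h])
  -- the vertices
  set g : (Σ i, Fin (κ i + 1)) → Fin n := fun p => (c p.1 p.2).1 with hg
  have hginj : Function.Injective g := by
    rintro ⟨i, r⟩ ⟨i', r'⟩ h
    by_cases hii : i = i'
    · subst hii
      have h' : r = r' := (hval i).1 h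
      rw [h']
    · exfalso
      have h1 : (c i r).1 ∈ vs (c i) := by
        rw [vs]
        exact Finset.mem_image_of_mem _ (Finset.mem_univ r)
      have h2 : (c i' r').1 ∈ vs (c i') := by
        rw [vs]
        exact Finset.mem_image_of_mem _ (Finset.mem_univ r')
      have h3 : (c i r).1 = (c i' r').1 := h
      rw [h3] at h1
      exact Finset.disjoint_left.1 (hdis i i' hii) h1 h2
  set e : (Σ i, Fin (κ i + 1)) ⊕ ((Set.range g)ᶜ : Set (Fin n)) ≃ Fin n :=
    (Equiv.sumCongr (Equiv.ofInjective g hginj) (Equiv.refl _)).trans (Equiv.Set.sumCompl _) with he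
  have he1 : ∀ p, e (Sum.inl p) = g p := fun p => rfl
  have he2 : ∀ v, e (Sum.inr v) = v.1 := fun v => rfl
  -- the local factors
  set f : (HE n d → L) → Fin n → ℝ := fun σ v =>
    w (fun i => σ (v, i)) *
      ∏ j, (if (v, j) ∈ cov (EU c) then 1 else x (σ (v, j))) with hf
  have hf1 : ∀ σ p, f σ (g p) = w (fun i => σ (g p, i)) *
      ∏ i ∈ (univ.erase (c p.1 p.2).2.1).erase (c p.1 p.2).2.2, x (σ (g p, i)) := by
    intro σ p
    have hiff : ∀ j, (g p, j) ∈ cov (EU c) ↔ (j = (c p.1 p.2).2.1 ∨ j = (c p.1 p.2).2.2) := by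
      intro j
      rw [hcov]
      constructor
      · rintro ⟨i, r, h1, h2⟩
        have h3 : g p = g ⟨i, r⟩ := h1
        have h4 := hginj h3
        subst h4
        exact h2
      · intro h
        exact ⟨p.1, p.2, rfl, h⟩
    rw [hf]
    show _ * _ = _ * _
    congr 1
    rw [← Finset.prod_subset (Finset.subset_univ
      ((univ.erase (c p.1 p.2).2.1).erase (c p.1 p.2).2.2))]
    · refine Finset.prod_congr rfl fun j hj => ?_
      rw [Finset.mem_erase, Finset.mem_erase] at hj
      rw [if_neg]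
      rw [hiff]
      exact fun h => h.elim hj.2.1 hj.1
    · intro j _ hj
      rw [if_pos]
      rw [hiff]
      by_contra hcon
      push Not at hcon
      apply hj
      rw [Finset.mem_erase, Finset.mem_erase]
      exact ⟨hcon.2, hcon.1, Finset.mem_univ _⟩
  have hf2 : ∀ σ (v : ((Set.range g)ᶜ : Set (Fin n))), f σ v.1 =
      w (fun i => σ (v.1, i)) * ∏ j, x (σ (v.1, j)) := by
    intro σ v
    rw [hf]
    show _ * _ = _ * _
    congr 1
    refine Finset.prod_congr rfl fun j _ => ?_
    rw [if_neg]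
    rw [hcov]
    rintro ⟨i, r, h1, -⟩
    exact v.2 ⟨⟨i, r⟩, h1.symm⟩
  -- the integrand
  have hint : ∀ σ : HE n d → L, (if Eqn (EU c) σ then (∏ v, w (fun i => σ (v, i))) *
      ∏ h ∈ (cov (EU c))ᶜ, x (σ h) else 0) =
      (∏ i, ∏ r : Fin (κ i + 1), ((w (fun j => σ (g ⟨i, r⟩, j)) *
        ∏ j ∈ (univ.erase (c i r).2.1).erase (c i r).2.2, x (σ (g ⟨i, r⟩, j))) *
        (if σ (g ⟨i, r⟩, (c i r).2.2) = σ (g ⟨i, r + 1⟩, (c i (r + 1)).2.1) then (1 : ℝ) else 0))) *
      ∏ v : ((Set.range g)ᶜ : Set (Fin n)),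
        (w (fun j => σ (v.1, j)) * ∏ j, x (σ (v.1, j))) := by
    intro σ
    have h0 : (if Eqn (EU c) σ then (∏ v, w (fun i => σ (v, i))) *
        ∏ h ∈ (cov (EU c))ᶜ, x (σ h) else 0) = ((∏ v, w (fun i => σ (v, i))) *
        ∏ h ∈ (cov (EU c))ᶜ, x (σ h)) * (if Eqn (EU c) σ then (1 : ℝ) else 0) := by
      by_cases hh : Eqn (EU c) σ
      · rw [if_pos hh, if_pos hh, mul_one]
      · rw [if_neg hh, if_neg hh, mul_zero]
    have h1 : ∏ h ∈ (cov (EU c))ᶜ, x (σ h) =
        ∏ v, ∏ j, (if (v, j) ∈ cov (EU c) then 1 else x (σ (v, j))) := by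
      rw [← Fintype.prod_prod_type (f := fun h : Fin n × Fin d =>
        (if h ∈ cov (EU c) then 1 else x (σ h)))]
      rw [← Finset.prod_subset (Finset.subset_univ ((cov (EU c))ᶜ))]
      · refine Finset.prod_congr rfl fun h hh => ?_
        rw [if_neg (Finset.mem_compl.1 hh)]
      · intro h _ hh
        rw [if_pos]
        rwa [Finset.mem_compl, not_not] at hh
    have h2 : (∏ v, w (fun i => σ (v, i))) *
        ∏ v, ∏ j, (if (v, j) ∈ cov (EU c) then 1 else x (σ (v, j))) = ∏ v, f σ v := by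
      rw [← Finset.prod_mul_distrib]
    have h3 : ∏ v, f σ v = (∏ i, ∏ r : Fin (κ i + 1), f σ (g ⟨i, r⟩)) *
        ∏ v : ((Set.range g)ᶜ : Set (Fin n)), f σ v.1 := by
      rw [← Equiv.prod_comp e, Fintype.prod_sum_type, Fintype.prod_sigma]
      rfl
    rw [h0, hEqn, h1, h2, h3, mul_right_comm, ← Finset.prod_mul_distrib]
    congr 1
    · refine Finset.prod_congr rfl fun i _ => ?_
      rw [← Finset.prod_mul_distrib]
      refine Finset.prod_congr rfl fun r _ => ?_
      rw [hf1]
    · exact Finset.prod_congr rfl fun v _ => hf2 σ v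
  -- the equivalence
  set Θ : (HE n d → L) ≃ ((i : I) → Fin (κ i + 1) → (Fin d → L)) ×
      (((Set.range g)ᶜ : Set (Fin n)) → (Fin d → L)) :=
    (((Equiv.curry (Fin n) (Fin d) L).trans (Equiv.arrowCongr e.symm (Equiv.refl _))).trans
      (Equiv.sumArrowEquivProdArrow _ _ _)).trans
      (Equiv.prodCongr (Equiv.piCurry (fun (i : I) (_ : Fin (κ i + 1)) => (Fin d → L)))
        (Equiv.refl _)) with hΘ
  have hsum : Psi w (EU c) x = ∑ p : ((i : I) → Fin (κ i + 1) → (Fin d → L)) ×
      (((Set.range g)ᶜ : Set (Fin n)) → (Fin d → L)),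
      (∏ i, ∏ r : Fin (κ i + 1), ((w (p.1 i r) *
        ∏ j ∈ (univ.erase (c i r).2.1).erase (c i r).2.2, x (p.1 i r j)) *
        (if p.1 i r (c i r).2.2 = p.1 i (r + 1) (c i (r + 1)).2.1 then (1 : ℝ) else 0))) *
      ∏ v : ((Set.range g)ᶜ : Set (Fin n)),
        (w (p.2 v) * ∏ j, x (p.2 v j)) := by
    rw [Psi, Finset.sum_filter]
    refine Fintype.sum_equiv Θ _ _ fun σ => ?_
    rw [hint σ]
    rfl
  rw [hsum, Fintype.sum_prod_type]
  simp only []
  have hcard : Fintype.card ((Set.range g)ᶜ : Set (Fin n)) = n - ∑ i, (κ i + 1) := by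
    have h := Fintype.card_congr e
    rw [Fintype.card_sum, Fintype.card_sigma, Fintype.card_fin] at h
    simp only [Fintype.card_fin] at h
    omega
  have hA := Finset.prod_univ_sum (fun i : I => (univ : Finset (Fin (κ i + 1) → (Fin d → L))))
    (fun i (τ : Fin (κ i + 1) → (Fin d → L)) => ∏ r : Fin (κ i + 1),
      ((w (τ r) * ∏ j ∈ (univ.erase (c i r).2.1).erase (c i r).2.2, x (τ r j)) *
        (if τ r (c i r).2.2 = τ (r + 1) (c i (r + 1)).2.1 then (1 : ℝ) else 0)))
  rw [Fintype.piFinset_univ] at hA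
  have hB := Finset.prod_univ_sum (fun v : ((Set.range g)ᶜ : Set (Fin n)) =>
    (univ : Finset (Fin d → L))) (fun v (τ : Fin d → L) => (w τ * ∏ j, x (τ j)))
  rw [Fintype.piFinset_univ] at hB
  calc _ = (∑ p : (i : I) → Fin (κ i + 1) → (Fin d → L),
      ∏ i, ∏ r : Fin (κ i + 1), ((w (p i r) *
        ∏ j ∈ (univ.erase (c i r).2.1).erase (c i r).2.2, x (p i r j)) *
        (if p i r (c i r).2.2 = p i (r + 1) (c i (r + 1)).2.1 then (1 : ℝ) else 0))) *
      ∑ q : ((Set.range g)ᶜ : Set (Fin n)) → (Fin d → L),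
        ∏ v : ((Set.range g)ᶜ : Set (Fin n)), (w (q v) * ∏ j, x (q v j)) := by
        rw [Finset.sum_mul_sum]
    _ = _ := by
        rw [← hA, ← hB, mul_comm]
        congr 1
        · rw [Finset.prod_const, Finset.card_univ, hcard]
          rfl
        · refine Finset.prod_congr rfl fun i _ => ?_
          exact block w hw p q hpq x (κ i) (fun r => (c i r).2.1) (fun r => (c i r).2.2)
            (fun r => (hval i).2 r)

end Pool.Agent.Helper71.T6
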